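import Pool.Agent.Run7.h146.Met.I1

/-!
# Annihilating meteors (helper146), piece D1A: dimension one, left movers and right movers
-/

set_option autoImplicit false

open MeasureTheory Filter Topology ENNReal

namespace Run7.h376.Met

open Run7.h146.Met

/-- the removal time is attained at a partner -/
theorem partner {d : ℕ} {ε : ℝ} {S : Finset (X d)} {D : X d → ℝ≥0∞} (hD : IsD ε S D) {z : X d} (hz : z ∈ S)
    (h : D z ≠ ⊤) : ∃ y ∈ S, y ≠ z ∧ ct ε z y ≤ D y ∧ D z = ct ε z y := by
  classical
  have h1 := hD z hz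
  by_cases hF : (S.filter (fun y => y ≠ z ∧ ct ε z y ≤ D y)).Nonempty
  · obtain ⟨y, hy, hmin⟩ := Finset.exists_min_image _ (fun y => ct ε z y) hF
    rw [Finset.mem_filter] at hy
    refine ⟨y, hy.1, hy.2.1, hy.2.2, ?_⟩
    rw [h1]
    apply le_antisymm
    · exact iInf₂_le y ⟨hy.1, hy.2.1, hy.2.2⟩
    · exact le_iInf₂ fun w hw => hmin w (Finset.mem_filter.2 ⟨hw.1, hw.2.1, hw.2.2⟩)
  · exfalso
    apply h
    rw [h1]
    simp only [iInf_eq_top]
    intro y hy
    exact absurd ⟨y, Finset.mem_filter.2 ⟨hy.1, hy.2.1, hy.2.2⟩⟩ hF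

theorem norm1 (u : V 1) : ‖u‖ = |u 0| := by
  rw [EuclideanSpace.norm_eq, Fin.sum_univ_one, Real.norm_eq_abs, sq_abs, Real.sqrt_sq_eq_abs]

theorem pos0 (z : X 1) (t : ℝ) : pos z t 0 = z.1 0 + t * z.2 0 := by
  simp [pos]

theorem dist0 (z y : X 1) (t : ℝ) : ‖pos z t - pos y t‖ = |z.1 0 + t * z.2 0 - (y.1 0 + t * y.2 0)| := by
  rw [norm1, ← pos0, ← pos0]
  rfl

theorem t_D1A : S_CT → S_DYN → S_U1 → S_D1A := by
  classical
  intro hCT hDYN _ ε hε S L hL hv hNT hb
  obtain ⟨-, hsym, hat, hle, -⟩ := hCT 1 ε hε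
  have hD := (hDYN 1 ε S).1
  have hvel : ∀ y ∈ S, y.2 0 = 1 ∨ y.2 0 = -1 := by
    intro y hy
    have h1 := hv y hy
    rw [norm1] at h1
    exact eq_or_eq_neg_of_abs_eq h1
  obtain ⟨A, hA⟩ : ∃ A, A = S.filter fun z => 0 < dt ε S z ∧ 0 < z.1 0 ∧ z.1 0 ≤ L ∧ z.2 0 < 0 := ⟨_, rfl⟩
  obtain ⟨B, hB⟩ : ∃ B, B = S.filter fun z => 0 < dt ε S z ∧ 0 < z.1 0 ∧ z.1 0 ≤ L ∧ 0 < z.2 0 := ⟨_, rfl⟩
  obtain ⟨O, hO⟩ : ∃ O, O = S.filter fun z => ∃ t, 0 ≤ t ∧ t ≤ L ∧ ENNReal.ofReal t < dt ε S z ∧ ‖pos z t‖ ≤ ε :=
    ⟨_, rfl⟩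
  have goal : A.card ≤ (B.disjSum O).card := by
    apply Finset.card_le_card_of_forall_subsingleton
      (fun z w => w = Sum.inr z ∨ ∃ y ∈ S, (w = Sum.inl y ∨ w = Sum.inr y) ∧ y ≠ z ∧ 0 < y.2 0 ∧ 0 < ct ε z y ∧
        ct ε z y ≠ ⊤ ∧ ct ε z y = dt ε S y)
    · intro z hzA
      rw [hA, Finset.mem_filter] at hzA
      obtain ⟨hz, hpos, hx0, hxL, hvz⟩ := hzA
      have hvz1 : z.2 0 = -1 := by
        rcases hvel z hz with h | h
        · linarith
        · exact h
      by_cases hc : ENNReal.ofReal (z.1 0) < dt ε S z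
      · refine ⟨Sum.inr z, ?_, Or.inl rfl⟩
        rw [Finset.inr_mem_disjSum, hO, Finset.mem_filter]
        refine ⟨hz, z.1 0, hx0.le, hxL, hc, ?_⟩
        rw [norm1, pos0, hvz1]
        have : z.1 0 + z.1 0 * -1 = 0 := by ring
        rw [this, abs_zero]
        exact hε.le
      · push Not at hc
        have hfin : dt ε S z ≠ ⊤ := ne_top_of_le_ne_top ENNReal.ofReal_ne_top hc
        obtain ⟨y, hy, hyz, hle1, heq⟩ := partner hD hz hfin
        have hyD : dt ε S y = ct ε z y := by
          apply le_antisymm _ hle1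
          have h1 := hD y hy
          rw [h1]
          refine (iInf₂_le z ⟨hz, hyz.symm, ?_⟩).trans (le_of_eq (hsym y z))
          rw [hsym y z, heq]
        rw [heq] at hpos hfin hc
        obtain ⟨s, hs0, hs1, hs2, hs3⟩ := hat z y hfin
        rw [hs1] at hc
        have hsx : s ≤ z.1 0 := (ENNReal.ofReal_le_ofReal_iff hx0.le).1 hc
        have hspos : 0 < s := by
          rw [hs1] at hpos
          exact ENNReal.ofReal_pos.1 hpos
        have hs3' := hs3 0 le_rfl hspos
        rw [dist0] at hs2 hs3'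
        have hvy1 : y.2 0 = 1 := by
          rcases hvel y hy with h | h
          · exact h
          · exfalso
            rw [h, hvz1] at hs2 hs3'
            have e : z.1 0 + s * -1 - (y.1 0 + s * -1) = z.1 0 + 0 * -1 - (y.1 0 + 0 * -1) := by ring
            rw [e] at hs2
            linarith
        rw [hvy1, hvz1] at hs2 hs3'
        have hs2' := abs_le.1 hs2
        have hgt : 2 * ε < z.1 0 - y.1 0 := by
          rcases lt_abs.1 hs3' with h | h
          · linarith
          · exfalso
            linarith [hs2'.1]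
        -- the contact time
        have hs4 : z.1 0 - y.1 0 - 2 * s = 2 * ε := by
          obtain ⟨t0, ht0⟩ : ∃ t0 : ℝ, t0 = (z.1 0 - y.1 0 - 2 * ε) / 2 := ⟨_, rfl⟩
          have h1 : t0 ≤ s := by rw [ht0]; linarith [hs2'.2]
          have h2 : ¬ t0 < s := by
            intro h3
            have h4 := hs3 t0 (by rw [ht0]; linarith) h3
            rw [dist0, hvy1, hvz1] at h4
            have e : z.1 0 + t0 * -1 - (y.1 0 + t0 * 1) = 2 * ε := by rw [ht0]; ring
            rw [e, abs_of_pos (by linarith)] at h4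
            exact lt_irrefl _ h4
          have h3 : t0 = s := le_antisymm h1 (not_lt.1 h2)
          rw [← h3, ht0]
          ring
        have hyD' : dt ε S y = ENNReal.ofReal s := hyD.trans hs1
        have hzD' : dt ε S z = ENNReal.ofReal s := heq.trans hs1
        have hR : ∃ y' ∈ S, ((Sum.inl y : X 1 ⊕ X 1) = Sum.inl y' ∨ (Sum.inl y : X 1 ⊕ X 1) = Sum.inr y') ∧ y' ≠ z ∧
            0 < y'.2 0 ∧ 0 < ct ε z y' ∧ ct ε z y' ≠ ⊤ ∧ ct ε z y' = dt ε S y' :=
          ⟨y, hy, Or.inl rfl, hyz, by rw [hvy1]; norm_num, hpos, hfin, hyD.symm⟩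
        by_cases hy0 : 0 < y.1 0
        · refine ⟨Sum.inl y, ?_, Or.inr hR⟩
          rw [Finset.inl_mem_disjSum, hB, Finset.mem_filter]
          refine ⟨hy, ?_, hy0, by linarith, by rw [hvy1]; norm_num⟩
          rw [hyD]
          exact hpos
        · push Not at hy0
          rcases lt_trichotomy (y.1 0 + s) (-ε) with h | h | h
          · refine ⟨Sum.inr z, ?_, Or.inl rfl⟩
            rw [Finset.inr_mem_disjSum, hO, Finset.mem_filter]
            have hlt : max 0 (z.1 0 - ε) < s := max_lt hspos (by linarith)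
            refine ⟨hz, max 0 (z.1 0 - ε), le_max_left _ _, by linarith, ?_, ?_⟩
            · rw [hzD']
              exact (ENNReal.ofReal_lt_ofReal_iff hspos).2 hlt
            · rw [norm1, pos0, hvz1, abs_le]
              rcases le_total (z.1 0 - ε) 0 with h5 | h5
              · rw [max_eq_left h5]
                constructor <;> linarith
              · rw [max_eq_right h5]
                constructor <;> linarith
          · exfalso
            apply hb z hz y hy
            linarith
          · refine ⟨Sum.inr y, ?_, Or.inr ⟨y, hy, Or.inr rfl, hyz, by rw [hvy1]; norm_num, hpos, hfin, hyD.symm⟩⟩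
            rw [Finset.inr_mem_disjSum, hO, Finset.mem_filter]
            have hlt : max 0 (-ε - y.1 0) < s := max_lt hspos (by linarith)
            refine ⟨hy, max 0 (-ε - y.1 0), le_max_left _ _, by linarith, ?_, ?_⟩
            · rw [hyD']
              exact (ENNReal.ofReal_lt_ofReal_iff hspos).2 hlt
            · rw [norm1, pos0, hvy1, abs_le]
              rcases le_total (-ε - y.1 0) 0 with h5 | h5
              · rw [max_eq_left h5]
                constructor <;> linarith
              · rw [max_eq_right h5]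
                constructor <;> linarith
    · intro w hw z hz z' hz'
      obtain ⟨hzA, hz⟩ := hz
      obtain ⟨hzA', hz'⟩ := hz'
      rw [hA, Finset.mem_filter] at hzA hzA'
      have key : ∀ a b : X 1, a ∈ S → b ∈ S → ∀ y ∈ S, y ≠ a → y ≠ b → 0 < ct ε a y → ct ε a y ≠ ⊤ →
          ct ε a y = dt ε S y → ct ε b y = dt ε S y → a = b := by
        intro a b ha hb' y hy hya hyb h1 h2 h3 h4
        rcases hNT a ha y hy b hb' y hy hya.symm hyb.symm h1 h2 (h3.trans h4.symm) with h5 | h5
        · exact h5.1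
        · exact absurd h5.1 hya.symm
      rcases hz with hz | ⟨y, hy, hwy, hyz, hvy, h1, h2, h3⟩
      · rcases hz' with hz' | ⟨y', hy', hwy', hyz', hvy', h1', h2', h3'⟩
        · rw [hz] at hz'
          exact Sum.inr.inj hz'
        · exfalso
          rcases hwy' with h | h
          · rw [hz] at h
            exact Sum.inr_ne_inl h
          · rw [hz] at h
            have h5 := Sum.inr.inj h
            have h6 := hzA.2.2.2.2
            rw [h5] at h6
            linarith
      · rcases hz' with hz' | ⟨y', hy', hwy', hyz', hvy', h1', h2', h3'⟩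
        · exfalso
          rcases hwy with h | h
          · rw [hz'] at h
            exact Sum.inr_ne_inl h
          · rw [hz'] at h
            have h5 := Sum.inr.inj h
            have h6 := hzA'.2.2.2.2
            rw [h5] at h6
            linarith
        · have hyy : y = y' := by
            rcases hwy with h | h <;> rcases hwy' with h' | h'
            · exact Sum.inl.inj (h.symm.trans h')
            · exact absurd (h.symm.trans h') Sum.inl_ne_inr
            · exact absurd (h.symm.trans h') Sum.inr_ne_inl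
            · exact Sum.inr.inj (h.symm.trans h')
          subst hyy
          exact key z z' hzA.1 hzA'.1 y hy hyz hyz' h1 h2 h3 h3'
  rw [Finset.card_disjSum] at goal
  rw [hA, hB, hO] at goal
  unfold Occ
  convert goal

end Run7.h376.Met
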