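import Pool.Agent.Run7.h146.Met.I1

/-!
# Annihilating meteors (helper146), piece EN: the expected number of contact chains
-/

set_option autoImplicit false

open MeasureTheory Filter Topology ENNReal

namespace Run7.h376.Met

open Run7.h146.Met

theorem TM_comp {β β' α : Type*} [MeasurableSpace β] [MeasurableSpace β'] [MeasurableSpace α]
    {h : β' → Finset α → ℝ≥0∞} (hh : TM h) {φ : β → β'} (hφ : Measurable φ) : TM (fun b => h (φ b)) :=
  fun n => (hh n).comp ((hφ.comp measurable_fst).prodMk measurable_snd)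

theorem TM_ite {β α : Type*} [MeasurableSpace β] [MeasurableSpace α]
    {h : β → Finset α → ℝ≥0∞} (hh : TM h) {P : β → Prop} [DecidablePred P] (hC : MeasurableSet {b | P b}) :
    TM (fun b F => if P b then h b F else 0) := by
  intro n
  exact Measurable.ite (measurable_fst hC) (hh n) measurable_const

open Classical in
/-- the summand of the number of chains -/
noncomputable def sm {d : ℕ} (ε : ℝ) (k : ℕ) (z : X d) (s : ℝ≥0∞) (y : X d) (F : Finset (X d)) : ℝ≥0∞ :=
  if 0 < ct ε z y ∧ ct ε z y < s then nch ε k y (ct ε z y) (del y F) else 0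

theorem sm_pos {d : ℕ} {ε : ℝ} {k : ℕ} {z : X d} {s : ℝ≥0∞} {y : X d} {F : Finset (X d)}
    (h : 0 < ct ε z y ∧ ct ε z y < s) : sm ε k z s y F = nch ε k y (ct ε z y) (del y F) := if_pos h

theorem sm_neg {d : ℕ} {ε : ℝ} {k : ℕ} {z : X d} {s : ℝ≥0∞} {y : X d} {F : Finset (X d)}
    (h : ¬ (0 < ct ε z y ∧ ct ε z y < s)) : sm ε k z s y F = 0 := if_neg h

theorem nch_succ {d : ℕ} (ε : ℝ) (k : ℕ) (z : X d) (s : ℝ≥0∞) (F : Finset (X d)) :
    nch ε (k + 1) z s F = ∑ y ∈ F, sm ε k z s y F := by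
  rw [nch]
  apply Finset.sum_congr rfl
  intro y _
  by_cases h : 0 < ct ε z y ∧ ct ε z y < s
  · rw [sm_pos h, if_pos h]
  · rw [sm_neg h, if_neg h]

theorem TM_sm {d : ℕ} {ε : ℝ} (h2 : S_PO2) (hm : Measurable (fun p : X d × X d => ct ε p.1 p.2)) {k : ℕ}
    (hk : TM (fun (p : X d × ℝ≥0∞) F => nch ε k p.1 p.2 F)) :
    TM (fun (q : (X d × ℝ≥0∞) × X d) F => sm ε k q.1.1 q.1.2 q.2 F) := by
  classical
  have h3 := (h2 d (X d × ℝ≥0∞) _ hk).2.1
  have hg : Measurable (fun q : (X d × ℝ≥0∞) × X d => ((q.1.1, q.2) : X d × X d)) := by fun_prop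
  have hf' := hm.comp hg
  have hf : Measurable (fun q : (X d × ℝ≥0∞) × X d => ct ε q.1.1 q.2) := hf'
  have hφ : Measurable (fun q : (X d × ℝ≥0∞) × X d => (((q.2, ct ε q.1.1 q.2), q.2) : (X d × ℝ≥0∞) × X d)) :=
    (measurable_snd.prodMk hf).prodMk measurable_snd
  have hC : MeasurableSet {q : (X d × ℝ≥0∞) × X d | 0 < ct ε q.1.1 q.2 ∧ ct ε q.1.1 q.2 < q.1.2} :=
    (measurableSet_lt measurable_const hf).inter (measurableSet_lt hf (measurable_snd.comp measurable_fst))
  intro n
  have h4 := (h3 n).comp ((hφ.comp measurable_fst).prodMk (measurable_snd (α := (X d × ℝ≥0∞) × X d) (β := Fin n → X d)))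
  have h5 := h4.indicator (measurable_fst (β := Fin n → X d) hC)
  convert h5 using 1
  funext p
  by_cases h : 0 < ct ε p.1.1.1 p.1.2 ∧ ct ε p.1.1.1 p.1.2 < p.1.1.2
  · have hmem : p ∈ (Prod.fst ⁻¹' {q : (X d × ℝ≥0∞) × X d | 0 < ct ε q.1.1 q.2 ∧ ct ε q.1.1 q.2 < q.1.2} :
        Set (((X d × ℝ≥0∞) × X d) × (Fin n → X d))) := h
    rw [Set.indicator_of_mem hmem]
    exact sm_pos h
  · have hmem : p ∉ (Prod.fst ⁻¹' {q : (X d × ℝ≥0∞) × X d | 0 < ct ε q.1.1 q.2 ∧ ct ε q.1.1 q.2 < q.1.2} :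
        Set (((X d × ℝ≥0∞) × X d) × (Fin n → X d))) := h
    rw [Set.indicator_of_notMem hmem]
    exact sm_neg h

theorem TM_nch {d : ℕ} {ε : ℝ} (h2 : S_PO2) (h3 : S_PO3) (hm : Measurable (fun p : X d × X d => ct ε p.1 p.2))
    (k : ℕ) : TM (fun (p : X d × ℝ≥0∞) F => nch ε k p.1 p.2 F) := by
  induction k with
  | zero =>
    intro n
    exact measurable_const
  | succ k ih =>
    have h4 := h3 d (X d × ℝ≥0∞) _ (TM_sm h2 hm ih)
    intro n
    have h5 := h4 n
    simp only [nch_succ]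
    exact h5

theorem int_bound {C s : ℝ} (hC : 1 ≤ C) (hs : 0 ≤ s) (k : ℕ) (φ : ℝ≥0∞ → ℝ≥0∞)
    (hφ : ∀ u, φ u ≤ if u < ENNReal.ofReal s then ENNReal.ofReal ((C * u.toReal) ^ k / k.factorial) else 0) :
    ENNReal.ofReal C * ∫⁻ u in Set.Ioi (0 : ℝ), φ (ENNReal.ofReal u) ≤
      ENNReal.ofReal ((C * s) ^ (k + 1) / (k + 1).factorial) := by
  have h1 : ∫⁻ u in Set.Ioi (0 : ℝ), φ (ENNReal.ofReal u) ≤
      ∫⁻ u in Set.Ioi (0 : ℝ), (Set.Ioc (0 : ℝ) s).indicator (fun u => ENNReal.ofReal ((C * u) ^ k / k.factorial)) u := by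
    apply setLIntegral_mono' measurableSet_Ioi
    intro u hu
    have hu0 : (0 : ℝ) < u := hu
    refine (hφ _).trans ?_
    by_cases h : u < s
    · have hmem : u ∈ Set.Ioc (0 : ℝ) s := ⟨hu0, h.le⟩
      rw [if_pos ((ENNReal.ofReal_lt_ofReal_iff_of_nonneg hu0.le).2 h), Set.indicator_of_mem hmem,
        ENNReal.toReal_ofReal hu0.le]
    · rw [if_neg (fun h' => h ((ENNReal.ofReal_lt_ofReal_iff_of_nonneg hu0.le).1 h'))]
      exact zero_le
  have h2 : ∫⁻ u in Set.Ioi (0 : ℝ), (Set.Ioc (0 : ℝ) s).indicator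
      (fun u => ENNReal.ofReal ((C * u) ^ k / k.factorial)) u ≤
      ∫⁻ u in Set.Ioc (0 : ℝ) s, ENNReal.ofReal ((C * u) ^ k / k.factorial) := by
    rw [← lintegral_indicator measurableSet_Ioc]
    exact setLIntegral_le_lintegral _ _
  have hint : IntervalIntegrable (fun u : ℝ => (C * u) ^ k / k.factorial) volume 0 s := by
    apply Continuous.intervalIntegrable
    fun_prop
  have h3 : ∫⁻ u in Set.Ioc (0 : ℝ) s, ENNReal.ofReal ((C * u) ^ k / k.factorial) =
      ENNReal.ofReal (∫ u in Set.Ioc (0 : ℝ) s, (C * u) ^ k / k.factorial) := by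
    rw [ofReal_integral_eq_lintegral_ofReal]
    · exact (intervalIntegrable_iff_integrableOn_Ioc_of_le hs).1 hint
    · refine (ae_restrict_iff' measurableSet_Ioc).2 (Eventually.of_forall fun u hu => ?_)
      have := hu.1
      show (0 : ℝ) ≤ (C * u) ^ k / k.factorial
      positivity
  have h4 : ∫ u in Set.Ioc (0 : ℝ) s, (C * u) ^ k / k.factorial = C ^ k / k.factorial * (s ^ (k + 1) / (k + 1)) := by
    rw [← intervalIntegral.integral_of_le hs]
    have e : (fun u : ℝ => (C * u) ^ k / k.factorial) = fun u : ℝ => C ^ k / k.factorial * u ^ k := by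
      funext u
      rw [mul_pow]
      ring
    rw [e, intervalIntegral.integral_const_mul, integral_pow]
    ring
  refine (mul_le_mul_right (h1.trans (h2.trans (le_of_eq h3))) _).trans (le_of_eq ?_)
  rw [h4, ← ENNReal.ofReal_mul (by linarith)]
  congr 1
  rw [Nat.factorial_succ, mul_pow]
  push_cast
  have hk : (k.factorial : ℝ) ≠ 0 := by exact_mod_cast k.factorial_ne_zero
  have hk1 : ((k : ℝ) + 1) ≠ 0 := by positivity
  field_simp
  ring

theorem t_EN : S_PO1 → S_PO2 → S_PO3 → S_MK → S_MB → S_CT → S_CM → S_EN := by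
  classical
  intro h1 h2 h3 hMK hMB hCT hCM d ε hd hε
  have hm : Measurable (fun p : X d × X d => ct ε p.1 p.2) := (hCT d ε hε).1
  have hTM := TM_nch (d := d) (ε := ε) h2 h3 hm
  refine ⟨hTM, ?_⟩
  obtain ⟨C, hC, hC1, -⟩ := hCM d ε hd hε
  obtain ⟨hsigp, hsig, -, hB⟩ := hMB d hd
  refine ⟨C, hC, fun B hBm hBf => ?_⟩
  obtain ⟨hfin, hnull, -, -⟩ := hB B hBm hBf
  obtain ⟨hmk, hmk0⟩ := hMK d (mB B)
  have hprob := (h1 d (mB B)).1
  intro k
  induction k with
  | zero =>
    intro z s hz hs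
    have e : ∀ F : Finset (X d), nch ε 0 z (ENNReal.ofReal s) F = 1 := fun F => rfl
    simp only [e]
    rw [lintegral_const, measure_univ]
    simp
  | succ k ih =>
    intro z s hz hs
    have hTMh : TM (fun (y : X d) F => sm ε k z (ENNReal.ofReal s) y F) :=
      TM_comp (φ := fun y : X d => (((z, ENNReal.ofReal s), y) : (X d × ℝ≥0∞) × X d)) (TM_sm h2 hm (hTM k))
        (measurable_const.prodMk measurable_id)
    have e1 : ∫⁻ F, nch ε (k + 1) z (ENNReal.ofReal s) F ∂(poi (mB B)) =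
        ∫⁻ x, ∫⁻ F, sm ε k z (ENNReal.ofReal s) x (ins x F) ∂(poi (mB B)) ∂(mB B) := by
      simp only [nch_succ]
      exact hmk _ hTMh
    rw [e1]
    obtain ⟨φ, hφ⟩ : ∃ φ : ℝ≥0∞ → ℝ≥0∞, φ = fun u => if u < ENNReal.ofReal s then
        ENNReal.ofReal ((C * u.toReal) ^ k / k.factorial) else 0 := ⟨_, rfl⟩
    have hφm : Measurable φ := by
      rw [hφ]
      refine Measurable.ite measurableSet_Iio ?_ measurable_const
      exact ENNReal.measurable_ofReal.comp (((ENNReal.measurable_toReal.const_mul C).pow_const k).div_const _)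
    have e2 : ∀ᵐ x ∂(mB B), ∫⁻ F, sm ε k z (ENNReal.ofReal s) x (ins x F) ∂(poi (mB B)) ≤
        if 0 < ct ε z x ∧ ct ε z x ≠ ⊤ then φ (ct ε z x) else 0 := by
      have hae : ∀ᵐ x ∂(mB B), ‖x.2‖ = 1 := by
        have h5 : ∀ᵐ v ∂(sig d), ‖v‖ = 1 := by
          rw [ae_iff]
          exact hsig
        exact (Measure.quasiMeasurePreserving_snd (μ := (volume : Measure (V d)).restrict B) (ν := sig d)).ae h5
      filter_upwards [hae] with x hx
      have e3 : ∀ᵐ F ∂(poi (mB B)), sm ε k z (ENNReal.ofReal s) x (ins x F) =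
          if 0 < ct ε z x ∧ ct ε z x < ENNReal.ofReal s then nch ε k x (ct ε z x) F else 0 := by
        have h6 : ∀ᵐ F ∂(poi (mB B)), x ∉ F := by
          rw [ae_iff]
          simpa using hmk0 x
        filter_upwards [h6] with F hF
        have h7 : del x (ins x F) = F := by
          ext a
          unfold del ins
          simp only [Finset.mem_erase, Finset.mem_insert]
          constructor
          · rintro ⟨g1, g2 | g2⟩
            · exact absurd g2 g1
            · exact g2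
          · intro g
            exact ⟨fun he => hF (he ▸ g), Or.inr g⟩
        by_cases hc : 0 < ct ε z x ∧ ct ε z x < ENNReal.ofReal s
        · rw [sm_pos hc, if_pos hc, h7]
        · rw [sm_neg hc, if_neg hc]
      rw [lintegral_congr_ae e3]
      by_cases hc : 0 < ct ε z x ∧ ct ε z x < ENNReal.ofReal s
      · have hne : ct ε z x ≠ ⊤ := ne_top_of_lt hc.2
        simp only [if_pos hc]
        rw [if_pos ⟨hc.1, hne⟩, hφ]
        show _ ≤ if ct ε z x < ENNReal.ofReal s then ENNReal.ofReal ((C * (ct ε z x).toReal) ^ k / k.factorial) else 0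
        rw [if_pos hc.2]
        have h8 := ih x (ct ε z x).toReal hx ENNReal.toReal_nonneg
        rw [ENNReal.ofReal_toReal hne] at h8
        exact h8
      · simp only [if_neg hc]
        rw [lintegral_zero]
        exact zero_le
    refine (lintegral_mono_ae e2).trans ?_
    have hle : mB B ≤ (volume : Measure (V d)).prod (sig d) := by
      unfold mB
      have h9 : ((volume : Measure (V d)).restrict B).prod ((sig d).restrict Set.univ) =
          ((volume : Measure (V d)).prod (sig d)).restrict (B ×ˢ Set.univ) := Measure.prod_restrict _ _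
      rw [Measure.restrict_univ] at h9
      rw [h9]
      exact Measure.restrict_le_self
    refine (lintegral_mono' hle le_rfl).trans ?_
    refine le_trans ?_ (int_bound hC hs k φ (fun u => le_of_eq (by rw [hφ])))
    refine le_trans (le_of_eq ?_) (hC1 z hz φ hφm)
    refine lintegral_congr fun y => ?_
    by_cases hy : 0 < ct ε z y ∧ ct ε z y ≠ ⊤
    · simp only [if_pos hy]
    · simp only [if_neg hy]

end Run7.h376.Met
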